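import Pool.Agent.Results.MP_119ce6_al.PositiveChar

/-! # The form `EE` and elementary automorphisms -/

set_option autoImplicit false

namespace Pool.Agent.Y86.FA

open MvPolynomial Pool.Agent.Results.MP_119ce6_al.PositiveChar

section Comm

variable {K : Type*} [Field K] {I : Type*} [Fintype I] [DecidableEq I]

/-- elementary endomorphisms -/
noncomputable def em (l : I) (w : MvPolynomial I K) : MvPolynomial I K →ₐ[K] MvPolynomial I K :=
  aeval fun i => if i = l then X i + w else X i

/-- the product of the `(p-1)`-st powers of the variables other than `X l` -/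
noncomputable def QQ (K : Type*) [Field K] {I : Type*} [Fintype I] [DecidableEq I] (p : ℕ)
    (l : I) : MvPolynomial I K := ∏ i ∈ Finset.univ.erase l, X i ^ (p - 1)

lemma pd_em_ne {l k : I} (hk : k ≠ l) (w f : MvPolynomial I K) :
    pderiv k (em l w f) = em l w (pderiv k f) + pderiv k w * em l w (pderiv l f) := by
  unfold em
  rw [chain, ← Finset.add_sum_erase _ _ (Finset.mem_univ l), if_pos rfl, map_add,
    pderiv_X_of_ne (Ne.symm hk), zero_add, add_comm, mul_comm (pderiv k w)]
  congr 1
  rw [Finset.sum_eq_single k]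
  · rw [if_neg hk, pderiv_X_self, mul_one]
  · intro j hj hjk
    rw [if_neg (Finset.ne_of_mem_erase hj), pderiv_X_of_ne hjk, mul_zero]
  · intro h
    exact absurd (Finset.mem_erase.mpr ⟨hk, Finset.mem_univ _⟩) h

lemma pd_em_self {l : I} {w : MvPolynomial I K} (hw : pderiv l w = 0) (f : MvPolynomial I K) :
    pderiv l (em l w f) = em l w (pderiv l f) := by
  unfold em
  rw [chain, Finset.sum_eq_single l]
  · rw [if_pos rfl, map_add, pderiv_X_self, hw, add_zero, mul_one]
  · intro j _ hj
    rw [if_neg hj, pderiv_X_of_ne hj, mul_zero]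
  · simp

/-- the operators which behave well with respect to `τ` and `c` -/
def RR (l : I) (τ : MvPolynomial I K →ₐ[K] MvPolynomial I K) (c P : MvPolynomial I K) : Prop :=
  ∀ a b, pderiv l a = 0 → act P (τ a + b * c) = τ (act P a) + act P b * c ∧
    pderiv l (act P a) = 0

lemma RR.one (l : I) (τ : MvPolynomial I K →ₐ[K] MvPolynomial I K) (c : MvPolynomial I K) :
    RR l τ c 1 := by
  intro a b h
  simpa using h

lemma RR.mul {l : I} {τ : MvPolynomial I K →ₐ[K] MvPolynomial I K} {c P Q : MvPolynomial I K}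
    (hP : RR l τ c P) (hQ : RR l τ c Q) : RR l τ c (P * Q) := by
  intro a b h
  obtain ⟨h1, h2⟩ := hQ a b h
  obtain ⟨h3, h4⟩ := hP (act Q a) (act Q b) h2
  rw [act_mul, act_mul, act_mul, h1]
  exact ⟨h3, h4⟩

lemma RR.pow {l : I} {τ : MvPolynomial I K →ₐ[K] MvPolynomial I K} {c P : MvPolynomial I K}
    (hP : RR l τ c P) (k : ℕ) : RR l τ c (P ^ k) := by
  induction k with
  | zero => simpa using RR.one l τ c
  | succ k ih => rw [pow_succ]; exact ih.mul hP

lemma RR.prod {l : I} {τ : MvPolynomial I K →ₐ[K] MvPolynomial I K} {c : MvPolynomial I K}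
    {J : Type*} (S : Finset J) (P : J → MvPolynomial I K) (h : ∀ j ∈ S, RR l τ c (P j)) :
    RR l τ c (∏ j ∈ S, P j) := by
  classical
  induction S using Finset.induction_on with
  | empty => simpa using RR.one l τ c
  | insert j S hj ih =>
    rw [Finset.prod_insert hj]
    exact (h j (by simp)).mul (ih fun k hk => h k (by simp [hk]))

lemma RR_X {l k : I} (hk : k ≠ l) (w c : MvPolynomial I K) (hc : pderiv k c = 0) :
    RR l (em l w) c (X k) := by
  intro a b h
  rw [act_X, act_X, act_X]
  refine ⟨?_, ?_⟩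
  · rw [map_add, pd_em_ne hk, h, map_zero, mul_zero, add_zero, pderiv_mul, hc, mul_zero, add_zero]
  · rw [pd_comm, h, map_zero]

/-- **The transformation rule** of `EE` under an elementary endomorphism. -/
theorem EE_em (p : ℕ) [Fact p.Prime] [CharP K p] {l c' : I} (hcl : c' ≠ l)
    {w : MvPolynomial I K} (hw : pderiv l w = 0) (f : MvPolynomial I K) :
    EE p l (em l w f) = em l w (EE p l f) +
      act (QQ K p l) w * em l w (pderiv l (act (X l ^ (p - 2)) (f ^ (p - 1) * pderiv l f))) := by
  have hp : 2 ≤ p := (Fact.out : p.Prime).two_le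
  set τ : MvPolynomial I K →ₐ[K] MvPolynomial I K := em l w with hτ
  set g : MvPolynomial I K := act (X l ^ (p - 2)) (f ^ (p - 1) * pderiv l f) with hg
  set c : MvPolynomial I K := τ (pderiv l g) with hc
  have hk : ∀ i, pderiv i (pderiv l g) = 0 := by
    intro i
    rw [hg, ← act_X, ← act_X, ← act_mul, ← act_mul]
    exact key p i l f
  have hc0 : ∀ k, k ≠ l → pderiv k c = 0 := by
    intro k hkl
    rw [hc, hτ, pd_em_ne hkl, hk, hk, map_zero, mul_zero, add_zero]
  set P : MvPolynomial I K := X c' ^ (p - 2) * ∏ k ∈ (Finset.univ.erase l).erase c', X k ^ (p - 1)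
    with hP
  have hQ : (QQ K p l : MvPolynomial I K) = P * X c' := by
    unfold QQ
    rw [← Finset.mul_prod_erase (Finset.univ.erase l)
      (fun k => (X k : MvPolynomial I K) ^ (p - 1)) (a := c') (by simp [hcl]), hP]
    have : p - 1 = (p - 2) + 1 := by omega
    conv_lhs => rw [this, pow_succ]
    rw [← this]
    ring
  have hRP : RR l τ c P := by
    refine ((RR_X hcl w c (hc0 _ hcl)).pow _).mul (RR.prod _ _ fun k hk' => ?_)
    simp only [Finset.mem_erase] at hk'
    exact (RR_X hk'.2.1 w c (hc0 _ hk'.2.1)).pow _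
  have hCl : Cm τ (X l) := fun g => by rw [act_X, act_X, hτ, pd_em_self hw]
  have h1 : act (X l ^ (p - 2)) ((τ f) ^ (p - 1) * pderiv l (τ f)) = τ g := by
    rw [hτ, pd_em_self hw, ← map_pow, ← map_mul, ← hτ, (hCl.pow _), hg]
  have h2 : EE p l (τ f) = act (QQ K p l) (τ g) := by
    unfold EE opN
    rw [mul_comm, act_mul, h1]
    rfl
  have h3 : EE p l f = act (QQ K p l) g := by
    unfold EE opN
    rw [mul_comm, act_mul]
    rfl
  rw [h2, h3, hQ, act_mul P, act_mul P, act_mul P, act_X, act_X, act_X, hτ, pd_em_ne hcl, ← hτ,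
    ← hc]
  exact (hRP (pderiv c' g) (pderiv c' w) (by rw [pd_comm, hk])).1

lemma good_em (p : ℕ) [Fact p.Prime] [CharP K p] {l c' : I} (hcl : c' ≠ l)
    {w : MvPolynomial I K} (hw : pderiv l w = 0) (h : act (QQ K p l) w = 0) :
    Good p (em l w) := by
  have hp : 2 ≤ p := (Fact.out : p.Prime).two_le
  refine good_of p hp _ l 1 one_ne_zero fun f => ?_
  rw [EE_em p hcl hw, h, zero_mul, add_zero, C_1, one_mul]

lemma of_good_em (p : ℕ) [Fact p.Prime] [CharP K p] {l c' : I} (hcl : c' ≠ l)
    {w : MvPolynomial I K} (hw : pderiv l w = 0) (h : Good p (em l w)) :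
    act (QQ K p l) w = 0 := by
  have hp : 2 ≤ p := (Fact.out : p.Prime).two_le
  obtain ⟨u, _, hu⟩ := h
  have h1 := hu l (X l)
  rw [EE_X p hp _ _ _ hcl, map_zero, mul_zero, EE_em p hcl hw, EE_X p hp _ _ _ hcl, map_zero,
    zero_add, ← act_X, ← act_mul, pderiv_X_self, mul_one, ← pow_succ',
    show p - 2 + 1 = p - 1 by omega, iter_pow l _ (pderiv_X_self l) _ _ le_rfl, Nat.sub_self, pow_zero,
    mul_one, Nat.descFactorial_self] at h1
  have hfac : ((p - 1).factorial : K) ≠ 0 := by
    intro h
    rw [CharP.cast_eq_zero_iff K p, (Fact.out : p.Prime).dvd_factorial] at h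
    omega
  have h2 : em l w (C ((p - 1).factorial : K)) = C ((p - 1).factorial : K) := by
    have : (C ((p - 1).factorial : K) : MvPolynomial I K) = algebraMap K _ _ := rfl
    rw [this, AlgHom.commutes]
  rw [h2] at h1
  rcases mul_eq_zero.mp h1 with h3 | h3
  · exact h3
  · rw [C_eq_zero] at h3
    exact absurd h3 hfac

lemma desc_ne (p : ℕ) [Fact p.Prime] [CharP K p] {N : ℕ} (h : p ∣ N + 1) :
    ((N.descFactorial (p - 1) : ℕ) : K) ≠ 0 := by
  have hpp : p.Prime := Fact.out
  rw [Ne, CharP.cast_eq_zero_iff K p, Nat.descFactorial_eq_prod_range,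
    hpp.prime.dvd_finsetProd_iff]
  rintro ⟨j, hj, hd⟩
  rw [Finset.mem_range] at hj
  have hN : p ≤ N + 1 := Nat.le_of_dvd (by omega) h
  have h1 : p ∣ (N + 1) - (N - j) := Nat.dvd_sub h hd
  rw [show N + 1 - (N - j) = j + 1 by omega] at h1
  have := Nat.le_of_dvd (by omega) h1
  omega

lemma desc_eq (p : ℕ) [Fact p.Prime] [CharP K p] {N : ℕ} (h : ¬ p ∣ N + 1) :
    ((N.descFactorial (p - 1) : ℕ) : K) = 0 := by
  have hpp : p.Prime := Fact.out
  have hp := hpp.two_le
  rw [CharP.cast_eq_zero_iff K p, Nat.descFactorial_eq_prod_range,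
    hpp.prime.dvd_finsetProd_iff]
  have h1 : N % p < p := Nat.mod_lt _ hpp.pos
  have h2 : N % p ≠ p - 1 := by
    intro h2
    apply h
    have h3 := Nat.div_add_mod N p
    exact ⟨N / p + 1, by rw [mul_add, mul_one]; omega⟩
  refine ⟨N % p, Finset.mem_range.mpr (by omega), ?_⟩
  exact Nat.dvd_sub_mod N

/-- the exponent vector of `QQ` -/
noncomputable def dl {I : Type*} [Fintype I] [DecidableEq I] (p : ℕ) (l : I) : I →₀ ℕ :=
  ∑ i ∈ Finset.univ.erase l, Finsupp.single i (p - 1)

lemma dl_self {I : Type*} [Fintype I] [DecidableEq I] (p : ℕ) (l : I) : dl p l l = 0 := by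
  unfold dl
  rw [Finsupp.finsetSum_apply]
  refine Finset.sum_eq_zero fun i hi => ?_
  rw [Finsupp.single_apply, if_neg]
  rintro rfl
  simp at hi

lemma dl_ne {I : Type*} [Fintype I] [DecidableEq I] (p : ℕ) {l i : I} (h : i ≠ l) :
    dl p l i = p - 1 := by
  unfold dl
  rw [Finsupp.finsetSum_apply, Finset.sum_eq_single i]
  · simp
  · intro j _ hj
    rw [Finsupp.single_apply, if_neg hj]
  · intro h'
    exact absurd (Finset.mem_erase.mpr ⟨h, Finset.mem_univ _⟩) h'

lemma coeff_act (p : ℕ) [Fact p.Prime] [CharP K p] (l : I) (w : MvPolynomial I K) (t : I →₀ ℕ) :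
    coeff t (act (QQ K p l) w) = coeff (t + dl p l) w *
      ∏ i ∈ Finset.univ.erase l, (((t + dl p l) i).descFactorial (p - 1) : K) := by
  induction w using MvPolynomial.induction_on' with
  | monomial s a =>
    unfold QQ
    rw [prod_monomial]
    change coeff t (monomial (s - dl p l) _) = _
    rw [coeff_monomial, coeff_monomial]
    by_cases h : s = t + dl p l
    · rw [if_pos h, if_pos (by rw [h, add_tsub_cancel_right]), h]
    · rw [if_neg h, zero_mul]
      split_ifs with h1
      · have h2 : ¬ dl p l ≤ s := by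
          intro h3
          apply h
          rw [← h1, tsub_add_cancel_of_le h3]
        obtain ⟨i, hi⟩ : ∃ i, s i < dl p l i := by
          by_contra hcon
          push Not at hcon
          exact h2 hcon
        have hil : i ≠ l := by
          rintro rfl
          rw [dl_self] at hi
          omega
        rw [dl_ne p hil] at hi
        have h3 : ∏ j ∈ Finset.univ.erase l, ((s j).descFactorial (p - 1) : K) = 0 := by
          apply Finset.prod_eq_zero (Finset.mem_erase.mpr ⟨hil, Finset.mem_univ _⟩)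
          rw [Nat.descFactorial_eq_zero_iff_lt.mpr hi, Nat.cast_zero]
        rw [h3, mul_zero]
      · rfl
  | add f g hf hg => rw [map_add, coeff_add, hf, hg, coeff_add, add_mul]

/-- the criterion for the vanishing of the top part -/
theorem act_eq_zero_iff (p : ℕ) [Fact p.Prime] [CharP K p] (l : I) (w : MvPolynomial I K) :
    act (QQ K p l) w = 0 ↔ ∀ m : I →₀ ℕ, (∀ i, i ≠ l → p ∣ m i + 1) → coeff m w = 0 := by
  have hp : 2 ≤ p := (Fact.out : p.Prime).two_le
  constructor
  · intro h m hm
    have hle : dl p l ≤ m := by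
      intro i
      by_cases hi : i = l
      · rw [hi, dl_self]; exact Nat.zero_le _
      · rw [dl_ne p hi]
        have := Nat.le_of_dvd (by omega) (hm i hi)
        omega
    have h1 := coeff_act p l w (m - dl p l)
    rw [h, coeff_zero, tsub_add_cancel_of_le hle] at h1
    rcases mul_eq_zero.mp h1.symm with h2 | h2
    · exact h2
    · rw [Finset.prod_eq_zero_iff] at h2
      obtain ⟨i, hi, h3⟩ := h2
      exact absurd h3 (desc_ne p (hm i (Finset.ne_of_mem_erase hi)))
  · intro h
    ext t
    rw [coeff_act, coeff_zero]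
    by_cases ht : ∀ i, i ≠ l → p ∣ (t + dl p l) i + 1
    · rw [h _ ht, zero_mul]
    · push Not at ht
      obtain ⟨i, hi, h1⟩ := ht
      have h2 : ∏ i ∈ Finset.univ.erase l, (((t + dl p l) i).descFactorial (p - 1) : K) = 0 :=
        Finset.prod_eq_zero (Finset.mem_erase.mpr ⟨hi, Finset.mem_univ _⟩) (desc_eq p h1)
      rw [h2, mul_zero]

end Comm

end Pool.Agent.Y86.FA
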